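import Pool.Agent.H14R2.RC.Defs
import Pool.Agent.H14R2.RC.S.PEEL
import Pool.Agent.H14R2.RC.S.HSL
import Pool.Agent.H14R2.RC.S.SPEC
import Pool.Agent.H995R2.RC.AMP1

namespace RC14
open scoped InnerProductSpace
open Finset

variable {G : Type*} [Group G] [Fintype G]
variable {V : Type*} [NormedAddCommGroup V] [InnerProductSpace ℂ V] [FiniteDimensional ℂ V]

namespace AMP2

theorem sum_pow_list {A : Type*} [Ring A] (q : ℕ) (a : Fin q → A) (m : ℕ) :
    (∑ j, a j) ^ m = ∑ s : Fin m → Fin q, ((List.ofFn s).map a).prod := by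
  induction m with
  | zero => simp
  | succ m ih =>
    rw [pow_succ', ih, Finset.sum_mul_sum, ← Fintype.sum_prod_type']
    refine Fintype.sum_equiv (Fin.consEquiv fun _ => Fin q) _ _ ?_
    rintro ⟨i, s⟩
    simp [Fin.consEquiv, List.ofFn_succ]

/-- the combinatorial estimate: words of length `m` in `q` letters weighted by the size of
their range -/
theorem sum_words_le (q m : ℕ) (hq : 1 ≤ q) (Λ : ℝ) (hm : (m : ℝ) ≤ Λ * q / 2) :
    ∑ s : Fin m → Fin q, (1 / (q : ℝ)) ^ m *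
      Real.exp (-(Λ * (List.ofFn s).toFinset.card) / 2) ≤ 2 ^ q * Real.exp (-(m : ℝ)) := by
  classical
  have hq0 : (0 : ℝ) < q := by exact_mod_cast hq
  have h1 : ∀ s : Fin m → Fin q, (1 / (q : ℝ)) ^ m *
      Real.exp (-(Λ * (List.ofFn s).toFinset.card) / 2) ≤
      ∑ A : Finset (Fin q), if (∀ i, s i ∈ A) then
        (1 / (q : ℝ)) ^ m * Real.exp (-(Λ * A.card) / 2) else 0 := by
    intro s
    have h2 : ∀ i, s i ∈ (List.ofFn s).toFinset := by
      intro i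
      simp
    have h3 := Finset.single_le_sum (f := fun A : Finset (Fin q) => if (∀ i, s i ∈ A) then
        (1 / (q : ℝ)) ^ m * Real.exp (-(Λ * A.card) / 2) else 0) (s := Finset.univ)
        (fun A _ => by
          split_ifs
          · positivity
          · exact le_rfl) (Finset.mem_univ (List.ofFn s).toFinset)
    rw [if_pos h2] at h3
    exact h3
  refine (Finset.sum_le_sum fun s _ => h1 s).trans ?_
  rw [Finset.sum_comm]
  have h4 : ∀ A : Finset (Fin q), ∑ s : Fin m → Fin q, (if (∀ i, s i ∈ A) then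
        (1 / (q : ℝ)) ^ m * Real.exp (-(Λ * A.card) / 2) else 0) ≤ Real.exp (-(m : ℝ)) := by
    intro A
    rw [← Finset.sum_filter, Finset.sum_const, nsmul_eq_mul]
    have h5 : (Finset.univ.filter fun s : Fin m → Fin q => ∀ i, s i ∈ A).card = A.card ^ m := by
      have h6 : (Finset.univ.filter fun s : Fin m → Fin q => ∀ i, s i ∈ A) =
          Fintype.piFinset fun _ => A := by
        ext s
        simp
      rw [h6, Fintype.card_piFinset]
      simp
    rw [h5]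
    push_cast
    rw [← mul_assoc, ← mul_pow]
    have h7 : (A.card : ℝ) * (1 / (q : ℝ)) ≤ Real.exp (A.card / q - 1) := by
      have := Real.add_one_le_exp ((A.card : ℝ) / q - 1)
      calc (A.card : ℝ) * (1 / (q : ℝ)) = (A.card : ℝ) / q - 1 + 1 := by ring
        _ ≤ _ := this
    have h8 : ((A.card : ℝ) * (1 / (q : ℝ))) ^ m ≤ Real.exp (m * (A.card / q - 1)) := by
      rw [Real.exp_nat_mul]
      exact pow_le_pow_left₀ (by positivity) h7 m
    have h9 : (m : ℝ) * (A.card / q - 1) + -(Λ * A.card) / 2 ≤ -(m : ℝ) := by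
      have h10 : (m : ℝ) * (A.card / q) ≤ (Λ * q / 2) * (A.card / q) := by
        gcongr
      have h11 : (Λ * q / 2) * ((A.card : ℝ) / q) = Λ * A.card / 2 := by
        field_simp
      nlinarith
    calc ((A.card : ℝ) * (1 / (q : ℝ))) ^ m * Real.exp (-(Λ * A.card) / 2) ≤
        Real.exp (m * (A.card / q - 1)) * Real.exp (-(Λ * A.card) / 2) := by gcongr
      _ = Real.exp (m * (A.card / q - 1) + -(Λ * A.card) / 2) := by rw [Real.exp_add]
      _ ≤ _ := Real.exp_le_exp.2 h9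
  refine (Finset.sum_le_sum fun A _ => h4 A).trans ?_
  simp

omit [FiniteDimensional ℂ V] in
theorem proj_inner (E : Module.End ℂ V) (hE : SymIdem E) (v : V) :
    ⟪E v, v⟫_ℂ = ⟪E v, E v⟫_ℂ := by
  have h1 : E (E v) = E v := by rw [← Module.End.mul_apply, hE.2]
  have h2 := hE.1 (E v) v
  rw [h1] at h2
  exact h2

omit [FiniteDimensional ℂ V] in
theorem proj_pyth (E : Module.End ℂ V) (hE : SymIdem E) (v : V) :
    ‖v - E v‖ ^ 2 = ‖v‖ ^ 2 - (⟪E v, v⟫_ℂ).re := by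
  have h1 := norm_sub_sq (𝕜 := ℂ) v (E v)
  have h2 : RCLike.re ⟪v, E v⟫_ℂ = (⟪E v, v⟫_ℂ).re := by
    rw [← hE.1 v v]
    rfl
  have h3 : (⟪E v, v⟫_ℂ).re = ‖E v‖ ^ 2 := by
    rw [proj_inner E hE, inner_self_eq_norm_sq_to_K]
    norm_cast
  rw [h2] at h1
  rw [h1]
  linarith

end AMP2

open AMP2 in
/-- one step of the iteration: `m` is free with `m ≤ Λ q / 2`. -/
theorem AMP2STEP (ρ : G →* (V ≃ₗᵢ[ℂ] V)) (hirr : Irr ρ ⊤) (E : Module.End ℂ V)
    (hE : SymIdem E) (q : ℕ) (hq : 1 ≤ q) (Λ : ℝ) (hΛ : 0 ≤ Λ)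
    (hτ : rtr E ≤ Real.exp (-Λ) * Module.finrank ℂ V) (m : ℕ) (hm : (m : ℝ) ≤ Λ * q / 2) :
    ∃ E' : (Fin q → G) → Module.End ℂ V, (∀ z, SymIdem (E' z)) ∧
      (∀ z v, ‖v - E' z v‖ ^ 2 ≤ (2 / q : ℝ) * ∑ j, ‖v - cj ρ E (z j) v‖ ^ 2) ∧
      ∑ z, rtr (E' z) ≤ (Fintype.card G : ℝ) ^ q * Module.finrank ℂ V * 4 ^ q *
        (4 * Real.exp (-2)) ^ m := by
  classical
  have hq0 : (0 : ℝ) < q := by exact_mod_cast hq
  have hqC : (q : ℂ) ≠ 0 := by exact_mod_cast hq0.ne'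
  have hnt : Nontrivial V := by
    rcases subsingleton_or_nontrivial V with h | h
    · exfalso
      apply hirr.1
      exact Subsingleton.elim _ _
    · exact h
  have hd : (0:ℝ) < Module.finrank ℂ V := by
    exact_mod_cast Module.finrank_pos
  set d : ℝ := (Module.finrank ℂ V : ℝ) with hdd
  let M : (Fin q → G) → Module.End ℂ V := fun z => (1 / q : ℂ) • ∑ j, cj ρ E (z j)
  have hMsym : ∀ z, (M z).IsSymmetric := by
    intro z v w
    have hc : (starRingEnd ℂ) (1 / q : ℂ) = 1 / q := by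
      have h : (1 / q : ℂ) = ((1 / q : ℝ) : ℂ) := by push_cast; rfl
      rw [h, Complex.conj_ofReal]
    simp only [M, LinearMap.smul_apply, LinearMap.sum_apply]
    rw [inner_smul_left, inner_smul_right, sum_inner, inner_sum, hc]
    congr 1
    exact Finset.sum_congr rfl fun j _ => (cj_proj ρ E hE (z j)).1 v w
  have hMin : ∀ z v, (⟪M z v, v⟫_ℂ).re = ‖v‖ ^ 2 - (1 / q : ℝ) * ∑ j, ‖v - cj ρ E (z j) v‖ ^ 2 := by
    intro z v
    have h1 : (⟪M z v, v⟫_ℂ).re = (1 / q : ℝ) * ∑ j, (⟪cj ρ E (z j) v, v⟫_ℂ).re := by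
      simp only [M, LinearMap.smul_apply, LinearMap.sum_apply]
      have hc : (starRingEnd ℂ) (1 / q : ℂ) = ((1 / q : ℝ) : ℂ) := by
        have h : (1 / q : ℂ) = ((1 / q : ℝ) : ℂ) := by push_cast; rfl
        rw [h, Complex.conj_ofReal]
      rw [inner_smul_left, sum_inner, hc, Complex.re_ofReal_mul, Complex.re_sum]
    rw [h1]
    have h2 : ∀ j, (⟪cj ρ E (z j) v, v⟫_ℂ).re = ‖v‖ ^ 2 - ‖v - cj ρ E (z j) v‖ ^ 2 := by
      intro j
      rw [proj_pyth _ (cj_proj ρ E hE (z j)) v]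
      ring
    rw [Finset.sum_congr rfl fun j _ => h2 j, Finset.sum_sub_distrib]
    simp
    field_simp
  have hspec : ∀ z, ∃ E' : Module.End ℂ V, SymIdem E' ∧
      (∀ L : ℕ, (1 / 2 : ℝ) ^ (2 * L) * rtr E' ≤ rtr (M z ^ (2 * L))) ∧
      ∀ v, (1 - 1 / 2) * ‖v - E' v‖ ^ 2 ≤ ‖v‖ ^ 2 - (⟪M z v, v⟫_ℂ).re := by
    intro z
    refine SPEC (M z) (hMsym z) ?_ (1 / 2) (by norm_num) (by norm_num)
    intro v
    rw [hMin]
    have : 0 ≤ (1 / q : ℝ) * ∑ j, ‖v - cj ρ E (z j) v‖ ^ 2 := by positivity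
    linarith
  choose E' hE' htr hgap using hspec
  refine ⟨E', hE', ?_, ?_⟩
  · intro z v
    have h1 := hgap z v
    rw [hMin] at h1
    have h2 : (2 / q : ℝ) * ∑ j, ‖v - cj ρ E (z j) v‖ ^ 2 =
        2 * ((1 / q : ℝ) * ∑ j, ‖v - cj ρ E (z j) v‖ ^ 2) := by ring
    rw [h2]
    linarith
  · -- the trace bound
    have hE0 : 0 ≤ rtr E := by
      rw [← (hs_proj E hE).1]
      exact hs_nonneg E
    have hτ1 : rtr E / d ≤ Real.exp (-Λ) := by
      rw [div_le_iff₀ hd]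
      exact hτ
    have hτ0 : 0 ≤ rtr E / d := by positivity
    set N : ℝ := (Fintype.card G : ℝ) ^ q * d with hN
    have hN0 : 0 ≤ N := by positivity
    have h1 : ∀ z, rtr (E' z) ≤ 4 ^ m * hs (M z ^ m) := by
      intro z
      have h2 := htr z m
      have h3 : hs (M z ^ m) = rtr (M z ^ (2 * m)) := by
        unfold hs
        congr 1
        have h4 : LinearMap.adjoint (M z ^ m) = M z ^ m := by
          have h5 : IsSelfAdjoint (M z) := (LinearMap.isSymmetric_iff_isSelfAdjoint _).1 (hMsym z)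
          have h6 := h5.pow m
          exact h6
        rw [h4, ← pow_add]
        congr 1
        ring
      rw [h3]
      have h4 : (4 : ℝ) ^ m * ((1 / 2 : ℝ) ^ (2 * m) * rtr (E' z)) = rtr (E' z) := by
        rw [← mul_assoc, pow_mul, ← mul_pow]
        norm_num
      calc rtr (E' z) = (4 : ℝ) ^ m * ((1 / 2 : ℝ) ^ (2 * m) * rtr (E' z)) := h4.symm
        _ ≤ _ := by gcongr
    have h2 : Real.sqrt (∑ z, hs (M z ^ m)) ≤ Real.sqrt N * (2 ^ q * Real.exp (-(m : ℝ))) := by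
      have h3 : ∀ z, M z ^ m = ∑ s : Fin m → Fin q,
          ((1 / q : ℂ) ^ m) • ((List.ofFn s).map fun i => cj ρ E (z i)).prod := by
        intro z
        simp only [M]
        rw [smul_pow, sum_pow_list, Finset.smul_sum]
      have h4 : ∑ z, hs (M z ^ m) = ∑ z : Fin q → G, hs (∑ s : Fin m → Fin q,
          ((1 / q : ℂ) ^ m) • ((List.ofFn s).map fun i => cj ρ E (z i)).prod) :=
        Finset.sum_congr rfl fun z _ => by rw [h3 z]
      rw [h4]
      refine (sqrt_hs_sum_le (fun (s : Fin m → Fin q) (z : Fin q → G) =>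
        ((1 / q : ℂ) ^ m) • ((List.ofFn s).map fun i => cj ρ E (z i)).prod)).trans ?_
      have h5 : ∀ s : Fin m → Fin q, Real.sqrt (∑ z : Fin q → G,
          hs (((1 / q : ℂ) ^ m) • ((List.ofFn s).map fun i => cj ρ E (z i)).prod)) ≤
          Real.sqrt N * ((1 / (q : ℝ)) ^ m *
            Real.exp (-(Λ * (List.ofFn s).toFinset.card) / 2)) := by
        intro s
        have h6 : ∑ z : Fin q → G,
          hs (((1 / q : ℂ) ^ m) • ((List.ofFn s).map fun i => cj ρ E (z i)).prod) ≤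
            N * ((1 / (q : ℝ)) ^ m *
              Real.exp (-(Λ * (List.ofFn s).toFinset.card) / 2)) ^ 2 := by
          have h7 : ∀ z : Fin q → G,
              hs (((1 / q : ℂ) ^ m) • ((List.ofFn s).map fun i => cj ρ E (z i)).prod) =
              ((1 / (q : ℝ)) ^ m) ^ 2 * hs (((List.ofFn s).map fun i => cj ρ E (z i)).prod) := by
            intro z
            rw [hs_smul]
            congr 2
            rw [norm_pow, norm_div, norm_one, Complex.norm_natCast]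
          rw [Finset.sum_congr rfl fun z _ => h7 z, ← Finset.mul_sum]
          have h8 := PEEL ρ hirr E hE q (List.ofFn s)
          have h9 : (rtr E / d) ^ (List.ofFn s).toFinset.card ≤
              Real.exp (-(Λ * (List.ofFn s).toFinset.card) / 2) ^ 2 := by
            calc (rtr E / d) ^ (List.ofFn s).toFinset.card ≤
                Real.exp (-Λ) ^ (List.ofFn s).toFinset.card := pow_le_pow_left₀ hτ0 hτ1 _
              _ = Real.exp ((List.ofFn s).toFinset.card * (-Λ)) := (Real.exp_nat_mul _ _).symm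
              _ = Real.exp ((2 : ℕ) * (-(Λ * (List.ofFn s).toFinset.card) / 2)) := by
                congr 1
                push_cast
                ring
              _ = _ := Real.exp_nat_mul _ _
          calc ((1 / (q : ℝ)) ^ m) ^ 2 *
                ∑ z : Fin q → G, hs (((List.ofFn s).map fun i => cj ρ E (z i)).prod) ≤
                ((1 / (q : ℝ)) ^ m) ^ 2 * (N * (rtr E / d) ^ (List.ofFn s).toFinset.card) := by
                  gcongr
            _ ≤ ((1 / (q : ℝ)) ^ m) ^ 2 *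
                (N * Real.exp (-(Λ * (List.ofFn s).toFinset.card) / 2) ^ 2) := by gcongr
            _ = _ := by ring
        calc Real.sqrt _ ≤ Real.sqrt (N * ((1 / (q : ℝ)) ^ m *
              Real.exp (-(Λ * (List.ofFn s).toFinset.card) / 2)) ^ 2) := Real.sqrt_le_sqrt h6
          _ = _ := by
            rw [Real.sqrt_mul hN0, Real.sqrt_sq (by positivity)]
      calc _ ≤ ∑ s : Fin m → Fin q, Real.sqrt N * ((1 / (q : ℝ)) ^ m *
            Real.exp (-(Λ * (List.ofFn s).toFinset.card) / 2)) :=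
            Finset.sum_le_sum fun s _ => h5 s
        _ = Real.sqrt N * ∑ s : Fin m → Fin q, ((1 / (q : ℝ)) ^ m *
            Real.exp (-(Λ * (List.ofFn s).toFinset.card) / 2)) := by rw [Finset.mul_sum]
        _ ≤ _ := by
          gcongr
          exact sum_words_le q m hq Λ hm
    have h3 : ∑ z, hs (M z ^ m) ≤ N * (2 ^ q * Real.exp (-(m : ℝ))) ^ 2 := by
      have h4 : 0 ≤ ∑ z, hs (M z ^ m) := Finset.sum_nonneg fun z _ => hs_nonneg _
      calc ∑ z, hs (M z ^ m) = (Real.sqrt (∑ z, hs (M z ^ m))) ^ 2 := (Real.sq_sqrt h4).symm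
        _ ≤ (Real.sqrt N * (2 ^ q * Real.exp (-(m : ℝ)))) ^ 2 := by gcongr
        _ = _ := by rw [mul_pow, Real.sq_sqrt hN0]
    calc ∑ z, rtr (E' z) ≤ ∑ z, 4 ^ m * hs (M z ^ m) := Finset.sum_le_sum fun z _ => h1 z
      _ = 4 ^ m * ∑ z, hs (M z ^ m) := by rw [Finset.mul_sum]
      _ ≤ 4 ^ m * (N * (2 ^ q * Real.exp (-(m : ℝ))) ^ 2) := by gcongr
      _ = N * 4 ^ q * (4 * Real.exp (-2)) ^ m := by
        have h5 : Real.exp (-(m : ℝ)) ^ 2 = Real.exp (-2) ^ m := by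
          rw [← Real.exp_nat_mul, ← Real.exp_nat_mul]
          congr 1
          push_cast
          ring
        have h6 : ((2 : ℝ) ^ q) ^ 2 = 4 ^ q := by
          rw [← pow_mul, mul_comm, pow_mul]
          norm_num
        rw [mul_pow, mul_pow, h5, h6]
        ring

namespace AMP2

omit [Fintype G] [FiniteDimensional ℂ V] in
/-- comparison of the conjugate projections with the energy -/
theorem step_energy (ρ : G →* (V ≃ₗᵢ[ℂ] V)) (E0 E' : Module.End ℂ V) (hE0 : SymIdem E0)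
    (q : ℕ) (hq : 1 ≤ q) (z : Fin q → G) (v : V)
    (h : ‖v - E' v‖ ^ 2 ≤ (2 / q : ℝ) * ∑ j, ‖v - cj ρ E0 (z j) v‖ ^ 2) :
    ‖v - E' v‖ ^ 2 ≤ 4 * ‖v - E0 v‖ ^ 2 + 4 / (q : ℝ) * En ρ z v := by
  have hq0 : (0 : ℝ) < q := by exact_mod_cast hq
  refine h.trans ?_
  have h1 : ∀ j, ‖v - cj ρ E0 (z j) v‖ ^ 2 ≤ 2 * ‖v - E0 v‖ ^ 2 + 2 * ‖ρ (z j) v - v‖ ^ 2 := by
    intro j
    have h2 := AMP1.cj_dist ρ E0 hE0 (z j) v
    rw [norm_sub_rev] at h2
    have h3 : ‖v - cj ρ E0 (z j) v‖ ^ 2 ≤ (‖v - E0 v‖ + ‖ρ (z j) v - v‖) ^ 2 := by gcongr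
    nlinarith [sq_nonneg (‖v - E0 v‖ - ‖ρ (z j) v - v‖)]
  calc (2 / q : ℝ) * ∑ j, ‖v - cj ρ E0 (z j) v‖ ^ 2 ≤
      (2 / q : ℝ) * ∑ j, (2 * ‖v - E0 v‖ ^ 2 + 2 * ‖ρ (z j) v - v‖ ^ 2) := by
        gcongr with j _
        exact h1 j
    _ = _ := by
      rw [Finset.sum_add_distrib, ← Finset.mul_sum, Finset.sum_const, Finset.card_univ,
        Fintype.card_fin, nsmul_eq_mul]
      unfold En
      rw [← Finset.mul_sum]
      field_simp
      ring

omit [Fintype G] in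
/-- a projection of trace less than one vanishes -/
theorem proj_zero (E : Module.End ℂ V) (hE : SymIdem E) (h : rtr E < 1) : E = 0 := by
  have h1 := (hs_proj E hE).2
  have h2 : rtr E = (Module.finrank ℂ (LinearMap.range E) : ℝ) := by
    unfold rtr
    rw [h1]
    simp
  rw [h2] at h
  have h3 : Module.finrank ℂ (LinearMap.range E) = 0 := by
    have : Module.finrank ℂ (LinearMap.range E) < 1 := by exact_mod_cast h
    omega
  have h4 : LinearMap.range E = ⊥ := Submodule.finrank_eq_zero.1 h3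
  exact LinearMap.range_eq_bot.1 h4

theorem num1 (q m : ℕ) (hq : 8 ≤ q) (Λ : ℝ) (hΛ : 70 ≤ Λ) (hm : Λ * q / 2 - 1 ≤ m) :
    (4 : ℝ) ^ q * (4 * Real.exp (-2)) ^ m * Real.exp (Λ * q / 8) ≤
      Real.exp (-(Λ * q / 8)) := by
  have hq8 : (8 : ℝ) ≤ q := by exact_mod_cast hq
  have h4 : (4 : ℝ) ≤ Real.exp (1.3864) := by
    have h := Real.log_two_lt_d9
    have h1 : (4 : ℝ) = Real.exp (2 * Real.log 2) := by
      rw [mul_comm, Real.exp_mul, Real.exp_log (by norm_num)]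
      norm_num
    rw [h1]
    exact Real.exp_le_exp.2 (by linarith)
  have h5 : (4 : ℝ) ^ q ≤ Real.exp (q * 1.3864) := by
    rw [Real.exp_nat_mul]
    exact pow_le_pow_left₀ (by norm_num) h4 q
  have h6 : (4 * Real.exp (-2)) ^ m ≤ Real.exp (m * (1.3864 - 2)) := by
    rw [Real.exp_nat_mul]
    refine pow_le_pow_left₀ (by positivity) ?_ m
    calc 4 * Real.exp (-2) ≤ Real.exp (1.3864) * Real.exp (-2) := by gcongr
      _ = _ := by rw [← Real.exp_add]; congr 1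
  calc (4 : ℝ) ^ q * (4 * Real.exp (-2)) ^ m * Real.exp (Λ * q / 8) ≤
      Real.exp (q * 1.3864) * Real.exp (m * (1.3864 - 2)) * Real.exp (Λ * q / 8) := by gcongr
    _ = Real.exp (q * 1.3864 + m * (1.3864 - 2) + Λ * q / 8) := by
      rw [← Real.exp_add, ← Real.exp_add]
    _ ≤ _ := by
      apply Real.exp_le_exp.2
      nlinarith [mul_nonneg (sub_nonneg.2 hΛ) (by linarith : (0 : ℝ) ≤ q - 8)]

open Classical in
/-- indicator of a proposition -/
noncomputable def ind (p : Prop) : ℝ := if p then 1 else 0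

theorem ind_pos {p : Prop} (h : p) : ind p = 1 := by simp [ind, h]

theorem ind_neg {p : Prop} (h : ¬ p) : ind p = 0 := by simp [ind, h]

theorem ind_nonneg (p : Prop) : 0 ≤ ind p := by
  unfold ind
  split_ifs <;> norm_num

theorem ind_le_one (p : Prop) : ind p ≤ 1 := by
  unfold ind
  split_ifs <;> norm_num

theorem ind_mono {p r : Prop} (h : p → r) : ind p ≤ ind r := by
  by_cases hp : p
  · rw [ind_pos hp, ind_pos (h hp)]
  · rw [ind_neg hp]
    exact ind_nonneg r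

theorem card_eq_sum {Z : Type*} [Fintype Z] (P : Z → Prop) :
    (Nat.card {z : Z // P z} : ℝ) = ∑ z, ind (P z) := by
  classical
  rw [Nat.card_eq_fintype_card, Fintype.card_subtype]
  simp only [ind]
  rw [Finset.sum_ite]
  simp

theorem ITER (ρ : G →* (V ≃ₗᵢ[ℂ] V)) (hirr : Irr ρ ⊤) (q : ℕ) (hq : 8 ≤ q) (R : ℕ) :
    ∀ (E0 : Module.End ℂ V), SymIdem E0 → ∀ Λ : ℝ, 70 ≤ Λ →
      rtr E0 ≤ Real.exp (-Λ) * Module.finrank ℂ V →
      (Module.finrank ℂ V : ℝ) < Real.exp (Λ * (q / 8 : ℝ) ^ R) →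
      (Nat.card {z : Fin R → Fin q → G // ¬ ∀ v : V,
        (1 / 4 : ℝ) ^ R * ‖v‖ ^ 2 ≤
          ‖v - E0 v‖ ^ 2 + 1 / (q : ℝ) * ∑ r, En ρ (z r) v} : ℝ) ≤
      R * Real.exp (-(Λ * q / 8)) * (Fintype.card G : ℝ) ^ (R * q) := by
  classical
  have hq8 : (8 : ℝ) ≤ q := by exact_mod_cast hq
  have hq0 : (0 : ℝ) < q := by linarith
  have hnt : Nontrivial V := by
    rcases subsingleton_or_nontrivial V with h | h
    · exfalso
      apply hirr.1
      exact Subsingleton.elim _ _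
    · exact h
  have hd : (0:ℝ) < Module.finrank ℂ V := by
    exact_mod_cast Module.finrank_pos
  set d : ℝ := (Module.finrank ℂ V : ℝ) with hdd
  induction R with
  | zero =>
    intro E0 hE0 Λ hΛ hτ hdΛ
    have h1 : rtr E0 < 1 := by
      rw [pow_zero, mul_one] at hdΛ
      calc rtr E0 ≤ Real.exp (-Λ) * d := hτ
        _ < Real.exp (-Λ) * Real.exp Λ := by gcongr
        _ = 1 := by rw [← Real.exp_add]; simp
    have h2 := proj_zero E0 hE0 h1
    have h3 : ∀ z : Fin 0 → Fin q → G, ∀ v : V, (1 / 4 : ℝ) ^ 0 * ‖v‖ ^ 2 ≤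
          ‖v - E0 v‖ ^ 2 + 1 / (q : ℝ) * ∑ r, En ρ (z r) v := by
      intro z v
      rw [h2]
      simp
    have h4 : IsEmpty {z : Fin 0 → Fin q → G // ¬ ∀ v : V, (1 / 4 : ℝ) ^ 0 * ‖v‖ ^ 2 ≤
          ‖v - E0 v‖ ^ 2 + 1 / (q : ℝ) * ∑ r, En ρ (z r) v} := ⟨fun z => z.2 (h3 z.1)⟩
    rw [Nat.card_of_isEmpty]
    simp
  | succ R ih =>
    intro E0 hE0 Λ hΛ hτ hdΛ
    set m : ℕ := ⌊Λ * q / 2⌋₊ with hm
    have hm1 : (m : ℝ) ≤ Λ * q / 2 := Nat.floor_le (by positivity)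
    have hm2 : Λ * q / 2 - 1 ≤ m := by
      have := Nat.lt_floor_add_one (Λ * q / 2)
      linarith
    obtain ⟨E', hE', hgap, htr⟩ := AMP2STEP ρ hirr E0 hE0 q (by omega) Λ (by linarith) hτ m hm1
    rw [← hdd] at htr
    set Λ' : ℝ := Λ * q / 8 with hΛ'
    have hΛΛ' : Λ ≤ Λ' := by
      rw [hΛ']
      nlinarith
    have hΛ'70 : 70 ≤ Λ' := hΛ.trans hΛΛ'
    have hd' : d < Real.exp (Λ' * (q / 8 : ℝ) ^ R) := by
      refine hdΛ.trans_le (Real.exp_le_exp.2 (le_of_eq ?_))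
      rw [hΛ']
      ring
    set Q : ℝ := (Fintype.card G : ℝ) ^ (R * q) with hQ
    have hG : (0 : ℝ) < Fintype.card G := by exact_mod_cast Fintype.card_pos
    have hQ0 : 0 < Q := by positivity
    -- the first bad event
    have hbad0 : ∑ z0 : Fin q → G, ind (Real.exp (-Λ') * d < rtr (E' z0)) ≤
        (Fintype.card G : ℝ) ^ q * Real.exp (-Λ') := by
      have h1 : ∀ z0 : Fin q → G, ind (Real.exp (-Λ') * d < rtr (E' z0)) ≤
          rtr (E' z0) * (Real.exp Λ' / d) := by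
        intro z0
        by_cases h : Real.exp (-Λ') * d < rtr (E' z0)
        · rw [ind_pos h]
          have h2 : Real.exp (-Λ') * d * (Real.exp Λ' / d) = 1 := by
            have : Real.exp (-Λ') * Real.exp Λ' = 1 := by rw [← Real.exp_add]; simp
            field_simp
            exact this
          calc (1 : ℝ) = Real.exp (-Λ') * d * (Real.exp Λ' / d) := h2.symm
            _ ≤ _ := by gcongr
        · rw [ind_neg h]
          have h2 : 0 ≤ rtr (E' z0) := by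
            rw [← (hs_proj _ (hE' z0)).1]
            exact hs_nonneg _
          positivity
      calc _ ≤ ∑ z0 : Fin q → G, rtr (E' z0) * (Real.exp Λ' / d) :=
            Finset.sum_le_sum fun z0 _ => h1 z0
        _ = (∑ z0 : Fin q → G, rtr (E' z0)) * (Real.exp Λ' / d) := by rw [Finset.sum_mul]
        _ ≤ ((Fintype.card G : ℝ) ^ q * d * 4 ^ q * (4 * Real.exp (-2)) ^ m) *
              (Real.exp Λ' / d) := by gcongr
        _ = (Fintype.card G : ℝ) ^ q *
              ((4 : ℝ) ^ q * (4 * Real.exp (-2)) ^ m * Real.exp (Λ * q / 8)) := by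
          rw [← hΛ']
          field_simp
        _ ≤ _ := by
          gcongr
          exact num1 q m hq Λ hΛ hm2
    -- transfer
    have htrans : ∀ (z0 : Fin q → G) (z' : Fin R → Fin q → G),
        (∀ v : V, (1 / 4 : ℝ) ^ R * ‖v‖ ^ 2 ≤
          ‖v - E' z0 v‖ ^ 2 + 1 / (q : ℝ) * ∑ r, En ρ (z' r) v) →
        ∀ v : V, (1 / 4 : ℝ) ^ (R + 1) * ‖v‖ ^ 2 ≤
          ‖v - E0 v‖ ^ 2 + 1 / (q : ℝ) *
            ∑ r : Fin (R + 1), En ρ ((Fin.cons z0 z' : Fin (R + 1) → Fin q → G) r) v := by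
      intro z0 z' h v
      have h1 := h v
      have h2 := step_energy ρ E0 (E' z0) hE0 q (by omega) z0 v (hgap z0 v)
      rw [Fin.sum_univ_succ]
      simp only [Fin.cons_zero, Fin.cons_succ]
      have h3 : 0 ≤ 1 / (q : ℝ) * ∑ r, En ρ (z' r) v :=
        mul_nonneg (by positivity) (Finset.sum_nonneg fun r _ => AMP1.En_nonneg ρ (z' r) v)
      have h4 : 4 / (q : ℝ) * En ρ z0 v = 4 * (1 / (q : ℝ) * En ρ z0 v) := by ring
      rw [h4] at h2
      rw [pow_succ, mul_add]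
      linarith
    rw [card_eq_sum]
    have hsplit : ∑ z : Fin (R + 1) → Fin q → G, ind (¬ ∀ v : V,
        (1 / 4 : ℝ) ^ (R + 1) * ‖v‖ ^ 2 ≤
          ‖v - E0 v‖ ^ 2 + 1 / (q : ℝ) * ∑ r, En ρ (z r) v) =
        ∑ z0 : Fin q → G, ∑ z' : Fin R → Fin q → G, ind (¬ ∀ v : V,
        (1 / 4 : ℝ) ^ (R + 1) * ‖v‖ ^ 2 ≤
          ‖v - E0 v‖ ^ 2 + 1 / (q : ℝ) *
            ∑ r : Fin (R + 1), En ρ ((Fin.cons z0 z' : Fin (R + 1) → Fin q → G) r) v) := by
      rw [← Fintype.sum_prod_type']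
      symm
      refine Fintype.sum_equiv (Fin.consEquiv fun _ => Fin q → G) _ _ ?_
      rintro ⟨z0, z'⟩
      rfl
    rw [hsplit]
    have hinner : ∀ z0 : Fin q → G, ∑ z' : Fin R → Fin q → G, ind (¬ ∀ v : V,
        (1 / 4 : ℝ) ^ (R + 1) * ‖v‖ ^ 2 ≤
          ‖v - E0 v‖ ^ 2 + 1 / (q : ℝ) *
            ∑ r : Fin (R + 1), En ρ ((Fin.cons z0 z' : Fin (R + 1) → Fin q → G) r) v) ≤
        ind (Real.exp (-Λ') * d < rtr (E' z0)) * Q +
          R * Real.exp (-Λ') * Q := by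
      intro z0
      by_cases h : Real.exp (-Λ') * d < rtr (E' z0)
      · rw [ind_pos h]
        have h1 : 0 ≤ R * Real.exp (-Λ') * Q := by positivity
        have h2 : ∑ z' : Fin R → Fin q → G, ind (¬ ∀ v : V,
        (1 / 4 : ℝ) ^ (R + 1) * ‖v‖ ^ 2 ≤
          ‖v - E0 v‖ ^ 2 + 1 / (q : ℝ) *
            ∑ r : Fin (R + 1), En ρ ((Fin.cons z0 z' : Fin (R + 1) → Fin q → G) r) v) ≤ ∑ z' : Fin R → Fin q → G, (1 : ℝ) := by
          exact Finset.sum_le_sum fun z' _ => ind_le_one _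
        have h3 : ∑ z' : Fin R → Fin q → G, (1 : ℝ) = Q := by
          rw [Finset.sum_const, Finset.card_univ, Fintype.card_fun, Fintype.card_fun,
            Fintype.card_fin, Fintype.card_fin, hQ]
          push_cast
          rw [nsmul_eq_mul, mul_one]
          push_cast
          rw [← pow_mul, mul_comm]
        linarith
      · rw [ind_neg h, zero_mul, zero_add]
        have h1 := ih (E' z0) (hE' z0) Λ' hΛ'70 (not_lt.1 h) hd'
        rw [card_eq_sum] at h1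
        have h2 : ∑ z' : Fin R → Fin q → G, ind (¬ ∀ v : V,
        (1 / 4 : ℝ) ^ (R + 1) * ‖v‖ ^ 2 ≤
          ‖v - E0 v‖ ^ 2 + 1 / (q : ℝ) *
            ∑ r : Fin (R + 1), En ρ ((Fin.cons z0 z' : Fin (R + 1) → Fin q → G) r) v) ≤ ∑ z' : Fin R → Fin q → G, ind (¬ ∀ v : V,
            (1 / 4 : ℝ) ^ R * ‖v‖ ^ 2 ≤
          ‖v - E' z0 v‖ ^ 2 + 1 / (q : ℝ) * ∑ r, En ρ (z' r) v) := by
          exact Finset.sum_le_sum fun z' _ => ind_mono fun h3 h4 => h3 (htrans z0 z' h4)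
        have h3 : Real.exp (-(Λ' * q / 8)) ≤ Real.exp (-Λ') := by
          apply Real.exp_le_exp.2
          nlinarith
        calc _ ≤ _ := h2
          _ ≤ _ := h1
          _ ≤ _ := by gcongr
    calc _ ≤ ∑ z0 : Fin q → G, (ind (Real.exp (-Λ') * d < rtr (E' z0)) * Q +
          R * Real.exp (-Λ') * Q) := Finset.sum_le_sum fun z0 _ => hinner z0
      _ = (∑ z0 : Fin q → G, ind (Real.exp (-Λ') * d < rtr (E' z0))) * Q +
          (Fintype.card G : ℝ) ^ q * (R * Real.exp (-Λ') * Q) := by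
        rw [Finset.sum_add_distrib, Finset.sum_mul, Finset.sum_const, Finset.card_univ,
          Fintype.card_fun, Fintype.card_fin, nsmul_eq_mul]
        push_cast
        rfl
      _ ≤ ((Fintype.card G : ℝ) ^ q * Real.exp (-Λ')) * Q +
          (Fintype.card G : ℝ) ^ q * (R * Real.exp (-Λ') * Q) := by gcongr
      _ = _ := by
        rw [hQ]
        have h1 : (R + 1) * q = R * q + q := by ring
        rw [h1, pow_add]
        push_cast
        ring

end AMP2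

open AMP2 in
/-- iterated amplification -/
theorem AMP2 (ρ : G →* (V ≃ₗᵢ[ℂ] V)) (hirr : Irr ρ ⊤) (x : Fin 8 → G) (L : ℕ) (η : ℝ)
    (hη : rtr (Tx ρ x ^ (2 * L)) ≤ η * Module.finrank ℂ V) (q R : ℕ) (hq : 8 ≤ q) (Λ : ℝ)
    (hΛ : 70 ≤ Λ) (hηΛ : (8 / 7 : ℝ) ^ (2 * L) * η ≤ Real.exp (-Λ))
    (hd : (Module.finrank ℂ V : ℝ) < Real.exp (Λ * (q / 8 : ℝ) ^ R)) :
    (Nat.card {z : Fin R → Fin q → G // ¬ ∀ v : V,
        (1 / 4 : ℝ) ^ R * ‖v‖ ^ 2 ≤
          1 / 2 * En ρ x v + 1 / (q : ℝ) * ∑ r, En ρ (z r) v} : ℝ) ≤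
      R * Real.exp (-(Λ * q / 8)) * (Fintype.card G : ℝ) ^ (R * q) := by
  classical
  obtain ⟨E, hE, htr, hgap⟩ := SPEC (Tx ρ x) (AMP1.Tx_symm ρ x) (by
    intro v
    rw [AMP1.Tx_energy]
    have := AMP1.En_nonneg ρ x v
    linarith) (7 / 8) (by norm_num) (by norm_num)
  have hgap' : ∀ v, ‖v - E v‖ ^ 2 ≤ 1 / 2 * En ρ x v := by
    intro v
    have := hgap v
    rw [AMP1.Tx_energy] at this
    linarith
  have hτ : rtr E ≤ Real.exp (-Λ) * Module.finrank ℂ V := by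
    have h1 := (htr L).trans hη
    have h2 : (8 / 7 : ℝ) ^ (2 * L) * ((7 / 8 : ℝ) ^ (2 * L) * rtr E) = rtr E := by
      rw [← mul_assoc, ← mul_pow]
      norm_num
    calc rtr E = (8 / 7 : ℝ) ^ (2 * L) * ((7 / 8 : ℝ) ^ (2 * L) * rtr E) := h2.symm
      _ ≤ (8 / 7 : ℝ) ^ (2 * L) * (η * Module.finrank ℂ V) := by gcongr
      _ = ((8 / 7 : ℝ) ^ (2 * L) * η) * Module.finrank ℂ V := by ring
      _ ≤ _ := by gcongr
  refine le_trans ?_ (ITER ρ hirr q hq R E hE Λ hΛ hτ hd)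
  rw [card_eq_sum, card_eq_sum]
  exact Finset.sum_le_sum fun z _ => ind_mono fun h3 h4 => h3 fun v =>
    (h4 v).trans (by linarith [hgap' v])

theorem AMP2SUB (ρ : G →* (V ≃ₗᵢ[ℂ] V)) (W : Submodule ℂ V) (hW : Irr ρ W) (x : Fin 8 → G)
    (L : ℕ) (η : ℝ)
    (hη : rtr (Tx (res ρ W hW.2.1) x ^ (2 * L)) ≤ η * Module.finrank ℂ W)
    (q R : ℕ) (hq : 8 ≤ q) (Λ : ℝ)
    (hΛ : 70 ≤ Λ) (hηΛ : (8 / 7 : ℝ) ^ (2 * L) * η ≤ Real.exp (-Λ))
    (hd : (Module.finrank ℂ W : ℝ) < Real.exp (Λ * (q / 8 : ℝ) ^ R)) :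
    (Nat.card {z : Fin R → Fin q → G // ¬ ∀ v ∈ W,
        (1 / 4 : ℝ) ^ R * ‖v‖ ^ 2 ≤
          1 / 2 * En ρ x v + 1 / (q : ℝ) * ∑ r, En ρ (z r) v} : ℝ) ≤
      R * Real.exp (-(Λ * q / 8)) * (Fintype.card G : ℝ) ^ (R * q) := by
  have h := AMP2 (res ρ W hW.2.1) (AMP1.irr_res ρ W hW) x L η hη q R hq Λ hΛ hηΛ hd
  have hE : ∀ {ι : Type} [Fintype ι] (y : ι → G) (w : W),
      En (res ρ W hW.2.1) y w = En ρ y (w : V) := by
    intro ι _ y w
    unfold En
    apply Finset.sum_congr rfl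
    intro i _
    rw [Submodule.coe_norm, Submodule.coe_sub, res_apply]
  have hiff : ∀ z : Fin R → Fin q → G, (¬ ∀ v ∈ W,
        (1 / 4 : ℝ) ^ R * ‖v‖ ^ 2 ≤
          1 / 2 * En ρ x v + 1 / (q : ℝ) * ∑ r, En ρ (z r) v) ↔
      (¬ ∀ v : W, (1 / 4 : ℝ) ^ R * ‖v‖ ^ 2 ≤
        1 / 2 * En (res ρ W hW.2.1) x v + 1 / (q : ℝ) * ∑ r, En (res ρ W hW.2.1) (z r) v) := by
    intro z
    apply not_congr
    constructor
    · intro h1 v
      have h2 := h1 v v.2
      rw [hE, Submodule.coe_norm, Finset.sum_congr rfl fun r _ => hE (z r) v]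
      exact h2
    · intro h1 v hv
      have := h1 ⟨v, hv⟩
      rw [hE, Submodule.coe_norm, Finset.sum_congr rfl fun r _ => hE (z r) ⟨v, hv⟩] at this
      exact this
  have hc : Nat.card {z : Fin R → Fin q → G // ¬ ∀ v ∈ W,
        (1 / 4 : ℝ) ^ R * ‖v‖ ^ 2 ≤
          1 / 2 * En ρ x v + 1 / (q : ℝ) * ∑ r, En ρ (z r) v} =
      Nat.card {z : Fin R → Fin q → G // ¬ ∀ v : W, (1 / 4 : ℝ) ^ R * ‖v‖ ^ 2 ≤
        1 / 2 * En (res ρ W hW.2.1) x v + 1 / (q : ℝ) * ∑ r, En (res ρ W hW.2.1) (z r) v} :=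
    Nat.card_congr (Equiv.subtypeEquivRight hiff)
  rw [hc]
  exact h

end RC14
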