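import Pool.Agent.H14R2.RC.Defs

/-! Tasks HSL and SCHUR of helper14 (helper911). -/

namespace RC14
open scoped InnerProductSpace
open Finset

variable {G : Type*} [Group G] [Fintype G]
variable {V : Type*} [NormedAddCommGroup V] [InnerProductSpace ℂ V] [FiniteDimensional ℂ V]

theorem hs_eq_sum {ι : Type*} [Fintype ι] (b : OrthonormalBasis ι ℂ V) (A : Module.End ℂ V) :
    hs A = ∑ i, ‖A (b i)‖ ^ 2 := by
  unfold hs rtr
  rw [LinearMap.trace_eq_sum_inner _ b, Complex.re_sum]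
  refine Finset.sum_congr rfl fun i _ => ?_
  rw [Module.End.mul_apply, LinearMap.adjoint_inner_right, inner_self_eq_norm_sq_to_K]
  norm_cast

theorem hs_nonneg (A : Module.End ℂ V) : 0 ≤ hs A := by
  rw [hs_eq_sum (stdOrthonormalBasis ℂ V)]
  positivity

theorem hs_one : hs (1 : Module.End ℂ V) = Module.finrank ℂ V := by
  rw [hs_eq_sum (stdOrthonormalBasis ℂ V)]
  simp

theorem hs_adjoint (A : Module.End ℂ V) : hs (LinearMap.adjoint A) = hs A := by
  unfold hs rtr
  rw [LinearMap.adjoint_adjoint, LinearMap.trace_mul_comm]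

theorem norm_sq_le_hs (A : Module.End ℂ V) (v : V) : ‖A v‖ ^ 2 ≤ hs A * ‖v‖ ^ 2 := by
  set b := stdOrthonormalBasis ℂ V with hb
  have h1 : A v = ∑ i, ⟪b i, v⟫_ℂ • A (b i) := by
    conv_lhs => rw [← b.sum_repr' v]
    rw [map_sum]
    simp
  have h2 : ‖A v‖ ≤ ∑ i, ‖⟪b i, v⟫_ℂ‖ * ‖A (b i)‖ := by
    rw [h1]
    refine (norm_sum_le _ _).trans (le_of_eq ?_)
    refine Finset.sum_congr rfl fun i _ => norm_smul _ _
  have h3 := Finset.sum_mul_sq_le_sq_mul_sq Finset.univ (fun i => ‖⟪b i, v⟫_ℂ‖)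
    (fun i => ‖A (b i)‖)
  have h4 : ∑ i, ‖⟪b i, v⟫_ℂ‖ ^ 2 = ‖v‖ ^ 2 := b.sum_sq_norm_inner_right v
  calc ‖A v‖ ^ 2 ≤ (∑ i, ‖⟪b i, v⟫_ℂ‖ * ‖A (b i)‖) ^ 2 :=
        pow_le_pow_left₀ (norm_nonneg _) h2 2
    _ ≤ (∑ i, ‖⟪b i, v⟫_ℂ‖ ^ 2) * ∑ i, ‖A (b i)‖ ^ 2 := h3
    _ = hs A * ‖v‖ ^ 2 := by rw [h4, hs_eq_sum b]; ring

theorem HSL.proj_norm_le (E : Module.End ℂ V) (hE : SymIdem E) (v : V) : ‖E v‖ ≤ ‖v‖ := by
  have h1 : ‖E v‖ ^ 2 ≤ ‖E v‖ * ‖v‖ := by
    have h2 : ⟪E v, E v⟫_ℂ = ⟪E v, v⟫_ℂ := by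
      have h3 := hE.1 (E v) v
      have h4 : E (E v) = E v := by
        have := congrArg (fun T : Module.End ℂ V => T v) hE.2
        simpa using this
      rw [h4] at h3
      exact h3.symm
    have h5 : ‖E v‖ ^ 2 = ‖⟪E v, E v⟫_ℂ‖ := by
      rw [inner_self_eq_norm_sq_to_K, norm_pow]
      simp
    rw [h5, h2]
    exact norm_inner_le_norm _ _
  by_cases h : ‖E v‖ = 0
  · rw [h]; exact norm_nonneg _
  · have hpos : 0 < ‖E v‖ := lt_of_le_of_ne (norm_nonneg _) (Ne.symm h)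
    rw [pow_two] at h1
    exact le_of_mul_le_mul_left h1 hpos

theorem HSL.adjoint_symm (E : Module.End ℂ V) (hE : E.IsSymmetric) :
    LinearMap.adjoint E = E := by
  rw [← LinearMap.isSelfAdjoint_iff']
  exact (LinearMap.isSymmetric_iff_isSelfAdjoint E).1 hE

/-- multiplying on the right by an orthogonal projection decreases the norm -/
theorem hs_mul_proj (A E : Module.End ℂ V) (hE : SymIdem E) : hs (A * E) ≤ hs A := by
  have h1 : LinearMap.adjoint (A * E) = E * LinearMap.adjoint A := by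
    have := LinearMap.adjoint_comp A E
    rw [HSL.adjoint_symm E hE.1] at this
    exact this
  rw [← hs_adjoint, h1, ← hs_adjoint A, hs_eq_sum (stdOrthonormalBasis ℂ V),
    hs_eq_sum (stdOrthonormalBasis ℂ V)]
  refine Finset.sum_le_sum fun i _ => ?_
  rw [Module.End.mul_apply]
  exact pow_le_pow_left₀ (norm_nonneg _) (HSL.proj_norm_le E hE _) 2

theorem hs_op_mul (ρ : G →* (V ≃ₗᵢ[ℂ] V)) (g : G) (A : Module.End ℂ V) :
    hs (op ρ g * A) = hs A ∧ hs (A * op ρ g) = hs A := by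
  set b := stdOrthonormalBasis ℂ V with hb
  constructor
  · rw [hs_eq_sum b, hs_eq_sum b]
    refine Finset.sum_congr rfl fun i _ => ?_
    rw [Module.End.mul_apply, op_apply, LinearIsometryEquiv.norm_map]
  · rw [hs_eq_sum b, hs_eq_sum (b.map (ρ g))]
    refine Finset.sum_congr rfl fun i _ => ?_
    rw [Module.End.mul_apply, op_apply, OrthonormalBasis.map_apply]

/-- for a projection the squared norm is the trace (the rank) -/
theorem hs_proj (E : Module.End ℂ V) (hE : SymIdem E) :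
    hs E = rtr E ∧ LinearMap.trace ℂ V E = (Module.finrank ℂ (LinearMap.range E) : ℂ) := by
  constructor
  · unfold hs
    rw [HSL.adjoint_symm E hE.1, hE.2]
  · have h : IsIdempotentElem E := hE.2
    exact LinearMap.IsProj.trace ((LinearMap.isProj_range_iff_isIdempotentElem E).2 h)

/-- Cauchy--Schwarz -/
theorem trace_mul_le (A B : Module.End ℂ V) :
    ‖LinearMap.trace ℂ V (A * B)‖ ^ 2 ≤ hs A * hs B := by
  set b := stdOrthonormalBasis ℂ V with hb
  have h1 : ‖LinearMap.trace ℂ V (A * B)‖ ≤ ∑ i, ‖LinearMap.adjoint A (b i)‖ * ‖B (b i)‖ := by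
    rw [LinearMap.trace_eq_sum_inner _ b]
    refine (norm_sum_le _ _).trans (Finset.sum_le_sum fun i _ => ?_)
    rw [Module.End.mul_apply, ← LinearMap.adjoint_inner_left]
    exact norm_inner_le_norm _ _
  have h3 := Finset.sum_mul_sq_le_sq_mul_sq Finset.univ (fun i => ‖LinearMap.adjoint A (b i)‖)
    (fun i => ‖B (b i)‖)
  calc ‖LinearMap.trace ℂ V (A * B)‖ ^ 2
      ≤ (∑ i, ‖LinearMap.adjoint A (b i)‖ * ‖B (b i)‖) ^ 2 :=
        pow_le_pow_left₀ (norm_nonneg _) h1 2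
    _ ≤ _ := h3
    _ = hs A * hs B := by rw [← hs_adjoint A, hs_eq_sum b, hs_eq_sum b]

/-- Minkowski in `L²(Z; HS)` -/
theorem sqrt_hs_sum_le {Z S : Type*} [Fintype Z] [Fintype S] (A : S → Z → Module.End ℂ V) :
    Real.sqrt (∑ z, hs (∑ s, A s z)) ≤ ∑ s, Real.sqrt (∑ z, hs (A s z)) := by
  set b := stdOrthonormalBasis ℂ V with hb
  let W : (Z → Module.End ℂ V) → PiLp 2 (fun _ : Z × Fin (Module.finrank ℂ V) => V) :=
    fun B => WithLp.toLp 2 fun p => B p.1 (b p.2)
  have hW : ∀ B : Z → Module.End ℂ V, ‖W B‖ = Real.sqrt (∑ z, hs (B z)) := by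
    intro B
    rw [PiLp.norm_eq_of_L2]
    congr 1
    rw [Fintype.sum_prod_type]
    refine Finset.sum_congr rfl fun z _ => ?_
    rw [hs_eq_sum b]
  have hsum : W (fun z => ∑ s, A s z) = ∑ s, W (fun z => A s z) := by
    ext p
    simp [W, WithLp.ofLp_sum, Finset.sum_apply]
  rw [← hW, hsum]
  refine (norm_sum_le _ _).trans (le_of_eq ?_)
  refine Finset.sum_congr rfl fun s _ => ?_
  rw [hW]

theorem hs_smul (c : ℂ) (A : Module.End ℂ V) : hs (c • A) = ‖c‖ ^ 2 * hs A := by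
  rw [hs_eq_sum (stdOrthonormalBasis ℂ V), hs_eq_sum (stdOrthonormalBasis ℂ V), Finset.mul_sum]
  refine Finset.sum_congr rfl fun i _ => ?_
  rw [LinearMap.smul_apply, norm_smul, mul_pow]

/-- conjugating a projection gives a projection of the same trace -/
theorem cj_proj (ρ : G →* (V ≃ₗᵢ[ℂ] V)) (E : Module.End ℂ V) (hE : SymIdem E) (z : G) :
    SymIdem (cj ρ E z) := by
  constructor
  · intro v w
    have h1 : ∀ (g : G) (v w : V), ⟪ρ g v, w⟫_ℂ = ⟪v, ρ g⁻¹ w⟫_ℂ := by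
      intro g v w
      have h2 : w = ρ g (ρ g⁻¹ w) := by
        rw [map_inv]
        exact ((ρ g).apply_symm_apply w).symm
      conv_lhs => rw [h2]
      exact (ρ g).inner_map_map _ _
    simp only [cj, Module.End.mul_apply, op_apply]
    rw [h1, hE.1, h1, inv_inv]
  · unfold cj
    have h1 : op ρ z⁻¹ * op ρ z = 1 := by rw [← op_mul, inv_mul_cancel, op_one]
    calc op ρ z * E * op ρ z⁻¹ * (op ρ z * E * op ρ z⁻¹)
        = op ρ z * E * (op ρ z⁻¹ * op ρ z) * E * op ρ z⁻¹ := by simp only [mul_assoc]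
      _ = op ρ z * (E * E) * op ρ z⁻¹ := by rw [h1, mul_one]; simp only [mul_assoc]
      _ = _ := by rw [hE.2]

/-! ### SCHUR -/

/-- an operator commuting with an irreducible representation is a scalar -/
theorem SCHUR (ρ : G →* (V ≃ₗᵢ[ℂ] V)) (hirr : Irr ρ ⊤) (B : Module.End ℂ V)
    (hB : ∀ g, op ρ g * B = B * op ρ g) :
    B = (LinearMap.trace ℂ V B / (Module.finrank ℂ V : ℂ)) • (1 : Module.End ℂ V) := by
  have hnt : Nontrivial V := by
    by_contra h
    rw [not_nontrivial_iff_subsingleton] at h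
    exact hirr.1 (Subsingleton.elim _ _)
  obtain ⟨μ, hμ⟩ := Module.End.exists_eigenvalue B
  have hinv : Inv ρ (B.eigenspace μ) := by
    intro g v hv
    rw [Module.End.mem_eigenspace_iff] at hv ⊢
    have h1 := congrArg (fun T : Module.End ℂ V => T v) (hB g)
    simp only [Module.End.mul_apply, op_apply] at h1
    rw [← h1, hv, map_smul]
  have hne : B.eigenspace μ ≠ ⊥ := hμ
  have htop : B.eigenspace μ = ⊤ := by
    rcases hirr.2.2 _ le_top hinv with h | h
    · exact absurd h hne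
    · exact h
  have hBμ : B = μ • (1 : Module.End ℂ V) := by
    ext v
    have hv : v ∈ B.eigenspace μ := by rw [htop]; trivial
    rw [Module.End.mem_eigenspace_iff] at hv
    simpa using hv
  have hfr : (Module.finrank ℂ V : ℂ) ≠ 0 := by
    exact_mod_cast Module.finrank_pos.ne'
  have htr : LinearMap.trace ℂ V B = μ * Module.finrank ℂ V := by
    rw [hBμ, map_smul, LinearMap.trace_one, smul_eq_mul]
  rw [htr, mul_div_cancel_right₀ _ hfr]
  exact hBμ

/-- averaging over the group gives a scalar -/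
theorem SCHUR_avg (ρ : G →* (V ≃ₗᵢ[ℂ] V)) (hirr : Irr ρ ⊤) (A : Module.End ℂ V) :
    ∑ z : G, cj ρ A z =
      ((Fintype.card G : ℂ) * LinearMap.trace ℂ V A / (Module.finrank ℂ V : ℂ)) •
        (1 : Module.End ℂ V) := by
  have hcomm : ∀ g, op ρ g * (∑ z : G, cj ρ A z) = (∑ z : G, cj ρ A z) * op ρ g := by
    intro g
    rw [Finset.mul_sum, Finset.sum_mul]
    have h1 : ∀ z, op ρ g * cj ρ A z = cj ρ A (g * z) * op ρ g := by
      intro z
      unfold cj
      have h2 : op ρ (g * z)⁻¹ * op ρ g = op ρ z⁻¹ := by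
        rw [← op_mul]; congr 1; group
      rw [mul_assoc (op ρ (g * z) * A), h2, op_mul]
      simp only [mul_assoc]
    rw [Finset.sum_congr rfl fun z _ => h1 z]
    exact Fintype.sum_equiv (Equiv.mulLeft g) _ _ fun z => rfl
  have h := SCHUR ρ hirr _ hcomm
  have htr : LinearMap.trace ℂ V (∑ z : G, cj ρ A z) =
      (Fintype.card G : ℂ) * LinearMap.trace ℂ V A := by
    rw [map_sum]
    have h1 : ∀ z : G, LinearMap.trace ℂ V (cj ρ A z) = LinearMap.trace ℂ V A := by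
      intro z
      unfold cj
      rw [LinearMap.trace_mul_comm, ← mul_assoc, ← op_mul, inv_mul_cancel, op_one, one_mul]
    rw [Finset.sum_congr rfl fun z _ => h1 z, Finset.sum_const, Finset.card_univ, nsmul_eq_mul]
  rw [htr] at h
  exact h

end RC14
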